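import Mathlib
import Pool.Agent.H.MP_4226b8_an.A

set_option autoImplicit false

namespace Pool.Agent.Results.MP_4226b8_an.NotEquiv

open Pool.Agent.H.MP_ca490d_an Pool.Agent.H.MP_4226b8_an

theorem result : ∃ (M : Type) (_ : NormedAddCommGroup M) (_ : NormedSpace ℂ M)
    (t : M → M → M → M), CompleteSpace M ∧ IsJBTriple t ∧
    (∃ (Y : Type) (_ : NormedAddCommGroup Y) (_ : NormedSpace ℂ Y),
      CompleteSpace Y ∧ Nonempty (StrongDual ℂ Y ≃ₗᵢ[ℂ] M)) ∧
    ∀ c : NNReal, ∃ A : Set M,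
      Bornology.IsBounded A ∧ wk A ≤ 1 ∧ (c : ENNReal) * wk A < omega A :=
  ⟨Li, inferInstance, inferInstance, _, inferInstance, jb Li,
    ⟨_, inferInstance, inferInstance, inferInstance, ⟨dualEq _⟩⟩, main_L⟩

end Pool.Agent.Results.MP_4226b8_an.NotEquiv
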